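import Mathlib

/-!
# Numerical lemmas for the rigidity of near misses
-/

set_option autoImplicit false

namespace Pool.Agent.L5helper45.NM

theorem num_M {d D r M ν : ℝ} (hd0 : 0 < d) (hD2 : D ^ 2 = d) (hD : 4.5 ≤ D) (hrD : r ≤ 1.04 * D)
    (hr0 : 0 ≤ r) (hν0 : 0 ≤ ν) (hν : ν ≤ D / 32) (hM0 : 0 < M) (hMD : 3.9 ≤ M * D)
    (hνD : ν / d ≤ 1 / 144)
    (hkey : 1 - ν / d ≤ M ^ 2 + (2 * M * r + (1 + 2 * ν)) ^ 2 / (d ^ 2 * M) * (1 + ν)) :
    4 / 5 ≤ M := by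
  have hD0 : 0 < D := by linarith
  have w1 : 2 * M * r + (1 + 2 * ν) ≤ (2.08 * M + 0.285) * D := by
    have := mul_le_mul_of_nonneg_left hrD hM0.le
    nlinarith
  have w0 : 0 ≤ 2 * M * r + (1 + 2 * ν) := by positivity
  have w2 : (2 * M * r + (1 + 2 * ν)) ^ 2 ≤ ((2.08 * M + 0.285) * D) ^ 2 :=
    pow_le_pow_left₀ w0 w1 2
  have w3 : 1 + ν ≤ 0.2535 * D := by linarith
  have w4 : (2.08 * M + 0.285) ^ 2 ≤ (0.962 * M + 0.29) * (M * D) := by
    nlinarith [mul_le_mul_of_nonneg_left hD hM0.le, mul_pos hM0 hM0,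
      mul_le_mul_of_nonneg_left (mul_le_mul_of_nonneg_left hD hM0.le) hM0.le]
  have w5 : (2 * M * r + (1 + 2 * ν)) ^ 2 / (d ^ 2 * M) * (1 + ν) ≤
      0.2535 * (0.962 * M + 0.29) := by
    rw [div_mul_eq_mul_div, div_le_iff₀ (by positivity)]
    calc (2 * M * r + (1 + 2 * ν)) ^ 2 * (1 + ν)
        ≤ ((2.08 * M + 0.285) * D) ^ 2 * (0.2535 * D) := by
          apply mul_le_mul w2 w3 (by positivity) (by positivity)
      _ = 0.2535 * D ^ 3 * (2.08 * M + 0.285) ^ 2 := by ring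
      _ ≤ 0.2535 * D ^ 3 * ((0.962 * M + 0.29) * (M * D)) := by
          apply mul_le_mul_of_nonneg_left w4 (by positivity)
      _ = 0.2535 * (0.962 * M + 0.29) * (d ^ 2 * M) := by rw [← hD2]; ring
  by_contra hcon
  push Not at hcon
  nlinarith

theorem num_gamma {d r a M : ℝ} (hr0 : 0 ≤ r) (hr2 : r ^ 2 = d + 1)
    (ha : 4 ≤ a) (ha2 : a ^ 2 = 1 + d * M) (hM0 : 0 < M) (hM1 : M ≤ 1) (hγ0 : 0 ≤ a - r * M) :
    a - r * M ≤ 1.07 * (1 - M) * a := by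
  have e1 : (a - r * M) * (a + r * M) = (1 - M) * (a ^ 2 + M) := by
    have : (a - r * M) * (a + r * M) = a ^ 2 - r ^ 2 * M ^ 2 := by ring
    rw [this, hr2, ha2]
    ring
  have e2 : (a - r * M) * a ≤ (1 - M) * (a ^ 2 + M) := by
    rw [← e1]
    apply mul_le_mul_of_nonneg_left _ hγ0
    have := mul_nonneg hr0 hM0.le
    linarith
  have e3 : (1 - M) * (a ^ 2 + M) ≤ 1.07 * (1 - M) * a * a := by
    have h1 : a ^ 2 + M ≤ 1.07 * a ^ 2 := by nlinarith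
    have h2 := mul_le_mul_of_nonneg_left h1 (by linarith : 0 ≤ 1 - M)
    linarith
  exact le_of_mul_le_mul_right (e2.trans e3) (by linarith)

theorem num_point {d D r a M b q S : ℝ} (hd : 21 ≤ d) (hD2 : D ^ 2 = d) (hD : 4.5 ≤ D)
    (hrD : r ≤ 1.04 * D) (hr0 : 0 ≤ r) (ha : 4 ≤ a) (ha2 : a ^ 2 = 1 + d * M)
    (hb : 0 ≤ b) (hb2 : b ^ 2 = 1 + d * q) (hba : b ≤ a) (hγ0 : 0 ≤ a - r * M)
    (hS : |a * b - (M + q) * r| ≤ S) : |b - 1| ≤ 2 * (S + (a - r * M)) / a := by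
  have hd0 : 0 < d := by linarith
  have e3 : (b - 1) * (d * a - r * (b + 1)) = d * (a * b - (M + q) * r) - d * (a - r * M) := by
    have h1 : d * (M + q) = a ^ 2 + b ^ 2 - 2 := by
      rw [ha2, hb2]
      ring
    have h2 : d * ((M + q) * r) = (a ^ 2 + b ^ 2 - 2) * r := by rw [← h1]; ring
    have h3 : d * (a - r * M) = d * a - (a ^ 2 - 1) * r := by
      rw [ha2]
      ring
    rw [mul_sub d (a * b), h2, h3]
    ring
  have e4 : d * a / 2 ≤ d * a - r * (b + 1) := by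
    have h1 : r * (b + 1) ≤ r * (a + 1) := mul_le_mul_of_nonneg_left (by linarith) hr0
    have h2 : r * (a + 1) ≤ 1.04 * D * (1.25 * a) :=
      mul_le_mul hrD (by linarith) (by linarith) (by linarith)
    have h3 : 1.04 * D * (1.25 * a) ≤ d * a / 2 := by
      rw [← hD2]
      have : 1.3 * D ≤ D ^ 2 / 2 := by nlinarith
      nlinarith
    linarith
  have e5 : |b - 1| * (d * a / 2) ≤ d * (S + (a - r * M)) := by
    calc |b - 1| * (d * a / 2) ≤ |b - 1| * |d * a - r * (b + 1)| := by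
          apply mul_le_mul_of_nonneg_left (e4.trans (le_abs_self _)) (abs_nonneg _)
      _ = |d * (a * b - (M + q) * r) - d * (a - r * M)| := by rw [← abs_mul, e3]
      _ ≤ |d * (a * b - (M + q) * r)| + |d * (a - r * M)| := abs_sub _ _
      _ ≤ d * S + d * (a - r * M) := by
          rw [abs_mul, abs_mul, abs_of_pos hd0, abs_of_nonneg hγ0]
          have := mul_le_mul_of_nonneg_left hS hd0.le
          linarith
      _ = d * (S + (a - r * M)) := by ring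
  rw [le_div_iff₀ (by linarith)]
  have e6 : |b - 1| * a * (d / 2) ≤ 2 * (S + (a - r * M)) * (d / 2) := by linarith
  exact le_of_mul_le_mul_right e6 (by linarith)

theorem num_S {D a ν δ : ℝ} (hD : 4.5 ≤ D) (hν : ν ≤ D / 32) (ha : 4 ≤ a) (haD : 0.89 * D ≤ a)
    (hδ : δ ≤ 1 / 5) : (4 * ν + δ) / a ≤ 1 / 5 := by
  rw [div_le_iff₀ (by linarith)]
  linarith

theorem num_end {d D a ν δ H : ℝ} (hd0 : 0 < d) (hD2 : D ^ 2 = d) (hD : 4.5 ≤ D)
    (hν : ν ≤ D / 32) (ha : 4 ≤ a) (hδ0 : 0 ≤ δ) (hδ : δ ≤ 1 / 5) (hν0 : 0 ≤ ν)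
    (hH0 : 0 ≤ H) (hH : H ≤ 1.34 * δ * a) :
    (2 * H / a) ^ 2 * (4 * ν / d + 2 * δ / d) ≤ δ / 2 := by
  have e1 : 2 * H / a ≤ 2.68 * δ := by
    rw [div_le_iff₀ (by linarith)]
    linarith
  have e2 : (2 * H / a) ^ 2 ≤ (2.68 * δ) ^ 2 := pow_le_pow_left₀ (by positivity) e1 2
  have e3 : 4 * ν / d + 2 * δ / d ≤ 1 / 20 := by
    rw [← add_div, div_le_iff₀ hd0, ← hD2]
    nlinarith
  calc (2 * H / a) ^ 2 * (4 * ν / d + 2 * δ / d) ≤ (2.68 * δ) ^ 2 * (1 / 20) :=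
        mul_le_mul e2 e3 (by positivity) (by positivity)
    _ ≤ δ / 2 := by nlinarith

end Pool.Agent.L5helper45.NM
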