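import Mathlib
import Pool.Agent.L5helper45.NM.Num

/-!
# The real inequality behind the rigidity of near misses
-/

set_option autoImplicit false

open Finset

namespace Pool.Agent.L5helper45.NM

variable {ι : Type*} [Fintype ι] [DecidableEq ι]

/-- at most two nonzero terms, sum one and sum of squares one -/
theorem small_case {q : ι → ℝ} {A : Finset ι} (hA : A.card ≤ 2) (supp : ∀ i, i ∉ A → q i = 0)
    (sum1 : ∑ i, q i = 1) (sum2 : ∑ i, q i ^ 2 = 1) : ∃ l, q l = 1 := by
  have e1 : ∑ i ∈ A, q i = 1 := by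
    rw [← sum1]
    exact Finset.sum_subset (Finset.subset_univ A) fun i _ hi => supp i hi
  have e2 : ∑ i ∈ A, q i ^ 2 = 1 := by
    rw [← sum2]
    exact Finset.sum_subset (Finset.subset_univ A) fun i _ hi => by rw [supp i hi]; norm_num
  have h3 : A.card = 0 ∨ A.card = 1 ∨ A.card = 2 := by omega
  rcases h3 with h | h | h
  · rw [Finset.card_eq_zero] at h
    rw [h] at e1
    simp at e1
  · obtain ⟨a, ha⟩ := Finset.card_eq_one.1 h
    refine ⟨a, ?_⟩
    rw [ha] at e1
    simpa using e1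
  · obtain ⟨a, b, hab, hA'⟩ := Finset.card_eq_two.1 h
    rw [hA', Finset.sum_pair hab] at e1 e2
    have h4 : q a * q b = 0 := by nlinarith
    rcases mul_eq_zero.1 h4 with h5 | h5
    · exact ⟨b, by linarith⟩
    · exact ⟨a, by linarith⟩

/-- the positive part. -/
def pp (t : ℝ) : ℝ := max t 0

/-- the negative part. -/
def np (t : ℝ) : ℝ := max (-t) 0

theorem pp_nonneg (t : ℝ) : 0 ≤ pp t := le_max_right _ _
theorem np_nonneg (t : ℝ) : 0 ≤ np t := le_max_right _ _

theorem abs_eq (t : ℝ) : |t| = t + 2 * np t := by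
  unfold np
  rcases le_total 0 t with h | h
  · rw [abs_of_nonneg h, max_eq_right (by linarith)]; ring
  · rw [abs_of_nonpos h, max_eq_left (by linarith)]; ring

theorem pp_eq (t : ℝ) : pp t = t + np t := by
  unfold np pp
  rcases le_total 0 t with h | h
  · rw [max_eq_left h, max_eq_right (by linarith)]; ring
  · rw [max_eq_right h, max_eq_left (by linarith)]; ring

theorem sq_eq (t : ℝ) : t ^ 2 = pp t ^ 2 + np t ^ 2 := by
  unfold np pp
  rcases le_total 0 t with h | h
  · rw [max_eq_left h, max_eq_right (by linarith)]; ring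
  · rw [max_eq_right h, max_eq_left (by linarith)]; ring


/-- sums over the complement of one index -/
theorem hsplit (l : ι) (f : ι → ℝ) : ∑ i, f i = f l + ∑ i ∈ univ.erase l, f i :=
  (Finset.add_sum_erase _ _ (Finset.mem_univ l)).symm

theorem np_le {d : ℝ} (hd0 : 0 < d) {b q : ℝ} (h : b ^ 2 = 1 + d * q) : np q ≤ 1 / d := by
  unfold np
  rw [max_le_iff]
  constructor
  · rw [le_div_iff₀ hd0]
    have := sq_nonneg b
    linarith
  · exact (one_div_pos.2 hd0).le

/-- bookkeeping of the positive and negative parts -/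
theorem parts {d ν : ℝ} (hd0 : 0 < d) {q b : ι → ℝ} {A : Finset ι}
    (hqb : ∀ i, b i ^ 2 = 1 + d * q i) (supp : ∀ i, i ∉ A → q i = 0)
    (sum1 : ∑ i, q i = 1) (sum2 : ∑ i, q i ^ 2 = 1) (hν : (A.card : ℝ) = ν * d) :
    (∑ i, |q i|) ≤ 1 + 2 * ν ∧ ∑ i, pp (q i) ≤ 1 + ν ∧ 1 - ν / d ≤ ∑ i, pp (q i) ^ 2 := by
  obtain ⟨s, hs⟩ : ∃ s, s = ∑ i, np (q i) := ⟨_, rfl⟩
  have hs1 : s ≤ ν := by
    have e1 : s = ∑ i ∈ A, np (q i) := by
      rw [hs]
      symm
      apply Finset.sum_subset (Finset.subset_univ A)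
      intro i _ hi
      rw [supp i hi]
      unfold np
      norm_num
    rw [e1]
    calc ∑ i ∈ A, np (q i) ≤ ∑ _i ∈ A, 1 / d := Finset.sum_le_sum fun i _ => np_le hd0 (hqb i)
      _ = (A.card : ℝ) / d := by rw [Finset.sum_const, nsmul_eq_mul]; ring
      _ = ν := by rw [hν]; field_simp
  have hL : ∑ i, |q i| = 1 + 2 * s := by
    simp only [abs_eq, Finset.sum_add_distrib, ← Finset.mul_sum]
    rw [sum1, hs]
  have hP : ∑ i, pp (q i) = 1 + s := by
    simp only [pp_eq, Finset.sum_add_distrib]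
    rw [sum1, hs]
  have e1 : ∑ i, np (q i) ^ 2 ≤ 1 / d * s := by
    rw [hs, Finset.mul_sum]
    apply Finset.sum_le_sum
    intro i _
    rw [sq]
    exact mul_le_mul_of_nonneg_right (np_le hd0 (hqb i)) (np_nonneg _)
  have e2 : ∑ i, q i ^ 2 = ∑ i, pp (q i) ^ 2 + ∑ i, np (q i) ^ 2 := by
    rw [← Finset.sum_add_distrib]
    exact Finset.sum_congr rfl fun i _ => sq_eq _
  have e3 : 1 / d * s ≤ ν / d := by
    rw [one_div, inv_mul_eq_div]
    exact div_le_div_of_nonneg_right hs1 hd0.le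
  refine ⟨by linarith, by linarith, by linarith⟩

/-- The largest coefficient is at least `4/5`. -/
theorem core1 {d D r ν : ℝ} (hd0 : 0 < d) (hD2 : D ^ 2 = d) (hD : 4.5 ≤ D)
    (hr0 : 0 ≤ r) (hrD : r ≤ 1.04 * D) (hν0 : 0 ≤ ν) (hν1 : ν ≤ D / 32)
    {q b : ι → ℝ} {A : Finset ι}
    (hb : ∀ i, 0 ≤ b i) (hqb : ∀ i, b i ^ 2 = 1 + d * q i)
    (supp : ∀ i, i ∉ A → q i = 0)
    (sum1 : ∑ i, q i = 1) (sum2 : ∑ i, q i ^ 2 = 1)
    (pair : ∀ l k, l ≠ k → |b l * b k - |q l + q k| * r| ≤ (∑ i, |q i|) - |q l| - |q k|)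
    (hν : (A.card : ℝ) = ν * d) :
    ∃ l, (∀ i, q i ≤ q l) ∧ 4 / 5 ≤ q l ∧ q l ≤ 1 := by
  obtain ⟨hL, hP, hPsq⟩ := parts hd0 hqb supp sum1 sum2 hν
  have hne : (Finset.univ : Finset ι).Nonempty := by
    by_contra h
    rw [Finset.not_nonempty_iff_eq_empty] at h
    rw [h] at sum1
    simp at sum1
  obtain ⟨l, _, hl⟩ := Finset.exists_max_image Finset.univ q hne
  obtain ⟨M, hM⟩ : ∃ M, M = q l := ⟨_, rfl⟩
  have hM0 : 0 < M := by
    by_contra h
    push Not at h
    have : ∑ i, q i ≤ 0 := Finset.sum_nonpos fun i hi => (hl i hi).trans (hM ▸ h)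
    linarith
  have hM1 : M ≤ 1 := by
    have h1 : q l ^ 2 ≤ ∑ i, q i ^ 2 :=
      Finset.single_le_sum (f := fun i => q i ^ 2) (fun i _ => sq_nonneg _) (Finset.mem_univ l)
    rw [sum2, ← hM] at h1
    nlinarith
  have hppM : ∀ i, pp (q i) ≤ M := by
    intro i
    unfold pp
    rw [max_le_iff]
    exact ⟨hM ▸ hl i (Finset.mem_univ i), hM0.le⟩
  have hνD : ν / d ≤ 1 / 144 := by
    rw [div_le_iff₀ hd0, ← hD2]
    nlinarith
  have hMlow : 1 - ν / d ≤ M * (1 + ν) := by
    have e1 : ∑ i, pp (q i) ^ 2 ≤ ∑ i, M * pp (q i) := by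
      apply Finset.sum_le_sum
      intro i _
      rw [sq]
      exact mul_le_mul_of_nonneg_right (hppM i) (pp_nonneg _)
    rw [← Finset.mul_sum] at e1
    have e2 := mul_le_mul_of_nonneg_left hP hM0.le
    linarith
  have hMD : 3.9 ≤ M * D := by
    have e1 : M * (1 + ν) ≤ M * (0.2535 * D) := by
      apply mul_le_mul_of_nonneg_left _ hM0.le
      linarith
    linarith
  have ha2 : b l ^ 2 = 1 + d * M := by rw [hM]; exact hqb l
  obtain ⟨ε, hε⟩ : ∃ ε, ε = (2 * M * r + (1 + 2 * ν)) ^ 2 / (d ^ 2 * M) := ⟨_, rfl⟩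
  have hε0 : 0 ≤ ε := by rw [hε]; positivity
  have hppε : ∀ i, i ≠ l → pp (q i) ≤ ε := by
    intro i hi
    rcases le_total (q i) 0 with h | h
    · have : pp (q i) = 0 := by unfold pp; exact max_eq_right h
      rw [this]
      exact hε0
    · have e0 : pp (q i) = q i := by unfold pp; exact max_eq_left h
      rw [e0, hε, le_div_iff₀ (by positivity)]
      have e1 := (abs_le.1 (pair l i (Ne.symm hi))).2
      have hM0' : 0 ≤ q l := hM ▸ hM0.le
      rw [abs_of_nonneg (by linarith : (0 : ℝ) ≤ q l + q i)] at e1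
      have e2 : b l * b i ≤ 2 * M * r + (1 + 2 * ν) := by
        have e3 : q i ≤ q l := hl i (Finset.mem_univ i)
        have e4 : (q l + q i) * r ≤ 2 * M * r := by
          apply mul_le_mul_of_nonneg_right _ hr0
          linarith
        have e5 := abs_nonneg (q l)
        have e6 := abs_nonneg (q i)
        linarith
      have e3 : 0 ≤ b l * b i := mul_nonneg (hb l) (hb i)
      have e4 : (b l * b i) ^ 2 ≤ (2 * M * r + (1 + 2 * ν)) ^ 2 := pow_le_pow_left₀ e3 e2 2
      rw [mul_pow, ha2, hqb i] at e4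
      have e5 : 0 ≤ d * M := mul_nonneg hd0.le hM0.le
      have e6 : 0 ≤ d * q i := mul_nonneg hd0.le h
      have e7 : (1 + d * M) * (1 + d * q i) = 1 + d * M + d * q i + q i * (d ^ 2 * M) := by ring
      linarith
  have hkey1 : 1 - ν / d ≤ M ^ 2 + ε * (1 + ν) := by
    have e1 : ∑ i ∈ univ.erase l, pp (q i) ^ 2 ≤ ε * (1 + ν) := by
      calc ∑ i ∈ univ.erase l, pp (q i) ^ 2 ≤ ∑ i ∈ univ.erase l, ε * pp (q i) := by
            apply Finset.sum_le_sum
            intro i hi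
            rw [sq]
            exact mul_le_mul_of_nonneg_right (hppε i (Finset.ne_of_mem_erase hi)) (pp_nonneg _)
        _ = ε * ∑ i ∈ univ.erase l, pp (q i) := by rw [Finset.mul_sum]
        _ ≤ ε * (1 + ν) := by
            apply mul_le_mul_of_nonneg_left _ hε0
            have e2 := hsplit l (fun i => pp (q i))
            have e3 := pp_nonneg (q l)
            linarith
    have e2 := hsplit l (fun i => pp (q i) ^ 2)
    have e3 : pp (q l) = M := by
      rw [hM]
      unfold pp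
      exact max_eq_left (hM ▸ hM0.le)
    simp only [e3] at e2
    linarith
  have h45 := num_M hd0 hD2 hD hrD hr0 hν0 hν1 hM0 hMD hνD (by rw [← hε]; exact hkey1)
  refine ⟨l, fun i => hl i (Finset.mem_univ i), hM ▸ h45, hM ▸ hM1⟩

end Pool.Agent.L5helper45.NM
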