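import Mathlib
import Pool.Agent.L5helper45.NM.Core

/-!
# The real inequality behind the rigidity of near misses, last part
-/

set_option autoImplicit false

open Finset

namespace Pool.Agent.L5helper45.NM

variable {ι : Type*} [Fintype ι] [DecidableEq ι]

/-- the entries away from the largest one are close to one -/
theorem core2_point {d D r M a : ℝ} (hd : 21 ≤ d) (hD2 : D ^ 2 = d) (hD : 4.5 ≤ D)
    (hr0 : 0 ≤ r) (hrD : r ≤ 1.04 * D) {q b : ι → ℝ}
    (hb : ∀ i, 0 ≤ b i) (hqb : ∀ i, b i ^ 2 = 1 + d * q i)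
    (pair : ∀ l k, l ≠ k → |b l * b k - |q l + q k| * r| ≤ (∑ i, |q i|) - |q l| - |q k|)
    {l : ι} (hl : ∀ i, q i ≤ q l) (hM : M = q l) (hMM : 4 / 5 ≤ M) (ha : a = b l) (ha4 : 4 ≤ a)
    (hγ0 : 0 ≤ a - r * M) {S : ℝ} (hS : S = ∑ i ∈ univ.erase l, |q i|) (i : ι) (hi : i ≠ l) :
    |b i - 1| ≤ 2 * (S + (a - r * M)) / a := by
  have hd0 : 0 < d := by linarith
  have hSL : ∑ i, |q i| = M + S := by
    rw [hsplit l (fun i => |q i|), hS, ← hM, abs_of_pos (by linarith : 0 < M)]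
  have e0 : 0 ≤ q l + q i := by
    have h1 : -(1 / d) ≤ q i := by
      have := np_le hd0 (hqb i)
      unfold np at this
      have := (max_le_iff.1 this).1
      linarith
    have h2 : 1 / d ≤ 1 / 21 := one_div_le_one_div_of_le (by norm_num) hd
    linarith
  have e1 := pair l i (Ne.symm hi)
  rw [abs_of_nonneg e0, hSL, ← hM, ← ha, abs_of_pos (by linarith : 0 < M)] at e1
  have e2 : |a * b i - (M + q i) * r| ≤ S := by
    have := abs_nonneg (q i)
    linarith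
  have ha2 : a ^ 2 = 1 + d * M := by rw [ha, hM]; exact hqb l
  have hba : b i ≤ a := by
    apply le_of_sq_le_sq _ (by linarith)
    rw [ha2, hqb i]
    have := mul_le_mul_of_nonneg_left (hl i) hd0.le
    rw [← hM] at this
    linarith
  exact num_point hd hD2 hD hrD hr0 ha4 ha2 (hb i) (hqb i) hba hγ0 e2

theorem q_eq {d b q : ℝ} (hd0 : 0 < d) (h : b ^ 2 = 1 + d * q) : q = (b - 1) * (b + 1) / d := by
  have : (b - 1) * (b + 1) = d * q := by
    have : (b - 1) * (b + 1) = b ^ 2 - 1 := by ring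
    rw [this, h]
    ring
  rw [this]
  field_simp

/-- a sum over the complement of `l` of a function supported in `A` -/
theorem erase_eq {A : Finset ι} (l : ι) {f : ι → ℝ} (hf : ∀ i, i ∉ A → f i = 0) :
    ∑ i ∈ univ.erase l, f i = ∑ i ∈ A.erase l, f i := by
  symm
  apply Finset.sum_subset
  · intro i hi
    exact Finset.mem_erase.2 ⟨Finset.ne_of_mem_erase hi, Finset.mem_univ i⟩
  · intro i hi hi'
    apply hf
    intro hiA
    exact hi' (Finset.mem_erase.2 ⟨Finset.ne_of_mem_erase hi, hiA⟩)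

/-- If all entries away from `l` are within `t` of one, then the `ℓ¹` sum is small. -/
theorem core2_S {d t δ ν : ℝ} (hd0 : 0 < d) {q b : ι → ℝ} {A : Finset ι}
    (hb : ∀ i, 0 ≤ b i) (hqb : ∀ i, b i ^ 2 = 1 + d * q i) (supp : ∀ i, i ∉ A → q i = 0)
    {l : ι} (hsumq : ∑ i ∈ A.erase l, q i = δ) (hcard : ((A.erase l).card : ℝ) ≤ ν * d)
    (ht0 : 0 ≤ t) (ht : ∀ i, i ≠ l → |b i - 1| ≤ t) :
    ∑ i ∈ univ.erase l, |q i| ≤ t * (2 * ν + δ / 2) := by
  rw [erase_eq l (fun i hi => by rw [supp i hi, abs_zero])]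
  have e1 : ∀ i ∈ A.erase l, |q i| ≤ t * ((2 + d * q i / 2) / d) := by
    intro i hi
    have h1 := ht i (Finset.ne_of_mem_erase hi)
    have h3 : b i + 1 ≤ 2 + d * q i / 2 := by
      have h4 := hqb i
      have h5 := sq_nonneg (b i - 1)
      have h6 : (b i - 1) ^ 2 = b i ^ 2 - 2 * b i + 1 := by ring
      linarith
    have h2 : |q i| = |b i - 1| * ((b i + 1) / d) := by
      have := q_eq hd0 (hqb i)
      have h7 : |(b i - 1) * (b i + 1) / d| = |b i - 1| * ((b i + 1) / d) := by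
        rw [abs_div, abs_mul, abs_of_pos hd0,
          abs_of_nonneg (by linarith [hb i] : (0 : ℝ) ≤ b i + 1)]
        ring
      rw [← this] at h7
      exact h7
    rw [h2]
    apply mul_le_mul h1 (div_le_div_of_nonneg_right h3 hd0.le) _ ht0
    exact div_nonneg (by linarith [hb i]) hd0.le
  calc ∑ i ∈ A.erase l, |q i| ≤ ∑ i ∈ A.erase l, t * ((2 + d * q i / 2) / d) :=
        Finset.sum_le_sum e1
    _ = t * (2 * (A.erase l).card / d + δ / 2) := by
        rw [← Finset.mul_sum, ← Finset.sum_div, Finset.sum_add_distrib, Finset.sum_const,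
          nsmul_eq_mul, ← Finset.sum_div, ← Finset.mul_sum, hsumq]
        field_simp
    _ ≤ t * (2 * ν + δ / 2) := by
        apply mul_le_mul_of_nonneg_left _ ht0
        have : 2 * ((A.erase l).card : ℝ) / d ≤ 2 * ν := by
          rw [div_le_iff₀ hd0]
          linarith
        linarith

/-- If all entries away from `l` are within `t` of one, then the `ℓ²` sum is small. -/
theorem core2_sq {d t δ ν : ℝ} (hd0 : 0 < d) {q b : ι → ℝ} {A : Finset ι}
    (hqb : ∀ i, b i ^ 2 = 1 + d * q i) (supp : ∀ i, i ∉ A → q i = 0)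
    {l : ι} (hsumq : ∑ i ∈ A.erase l, q i = δ) (hcard : ((A.erase l).card : ℝ) ≤ ν * d)
    (ht0 : 0 ≤ t) (ht : ∀ i, i ≠ l → |b i - 1| ≤ t) :
    ∑ i ∈ univ.erase l, q i ^ 2 ≤ t ^ 2 * (4 * ν / d + 2 * δ / d) := by
  rw [erase_eq l (fun i hi => by rw [supp i hi]; norm_num)]
  have e1 : ∀ i ∈ A.erase l, q i ^ 2 ≤ t ^ 2 * ((4 + 2 * (d * q i)) / d ^ 2) := by
    intro i hi
    have h1 := ht i (Finset.ne_of_mem_erase hi)
    have h3 : (b i + 1) ^ 2 ≤ 4 + 2 * (d * q i) := by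
      have h4 := hqb i
      have h5 := sq_nonneg (b i - 1)
      have h6 : (b i - 1) ^ 2 = b i ^ 2 - 2 * b i + 1 := by ring
      have h7 : (b i + 1) ^ 2 = b i ^ 2 + 2 * b i + 1 := by ring
      linarith
    have h2 : q i ^ 2 = |b i - 1| ^ 2 * ((b i + 1) ^ 2 / d ^ 2) := by
      have := q_eq hd0 (hqb i)
      have h7 : ((b i - 1) * (b i + 1) / d) ^ 2 = |b i - 1| ^ 2 * ((b i + 1) ^ 2 / d ^ 2) := by
        rw [sq_abs]
        ring
      rw [← this] at h7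
      exact h7
    rw [h2]
    exact mul_le_mul (pow_le_pow_left₀ (abs_nonneg _) h1 2)
      (div_le_div_of_nonneg_right h3 (sq_nonneg d)) (div_nonneg (sq_nonneg _) (sq_nonneg _))
      (sq_nonneg t)
  calc ∑ i ∈ A.erase l, q i ^ 2 ≤ ∑ i ∈ A.erase l, t ^ 2 * ((4 + 2 * (d * q i)) / d ^ 2) :=
        Finset.sum_le_sum e1
    _ = t ^ 2 * (4 * (A.erase l).card / d ^ 2 + 2 * δ / d) := by
        rw [← Finset.mul_sum, ← Finset.sum_div, Finset.sum_add_distrib, Finset.sum_const,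
          nsmul_eq_mul, ← Finset.mul_sum, ← Finset.mul_sum, hsumq]
        field_simp
    _ ≤ t ^ 2 * (4 * ν / d + 2 * δ / d) := by
        apply mul_le_mul_of_nonneg_left _ (sq_nonneg t)
        have : 4 * ((A.erase l).card : ℝ) / d ^ 2 ≤ 4 * ν / d := by
          rw [div_le_div_iff₀ (by positivity) hd0]
          have := mul_le_mul_of_nonneg_left hcard (by linarith : 0 ≤ 4 * d)
          linarith
        linarith

/-- The last step. -/
theorem core2 {d D r ν : ℝ} (hd : 21 ≤ d) (hD2 : D ^ 2 = d) (hD : 4.5 ≤ D)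
    (hr0 : 0 ≤ r) (hr2 : r ^ 2 = d + 1) (hrD : r ≤ 1.04 * D) (hν0 : 0 ≤ ν) (hν1 : ν ≤ D / 32)
    {q b : ι → ℝ} {A : Finset ι}
    (hb : ∀ i, 0 ≤ b i) (hqb : ∀ i, b i ^ 2 = 1 + d * q i)
    (supp : ∀ i, i ∉ A → q i = 0)
    (sum1 : ∑ i, q i = 1) (sum2 : ∑ i, q i ^ 2 = 1)
    (pair : ∀ l k, l ≠ k → |b l * b k - |q l + q k| * r| ≤ (∑ i, |q i|) - |q l| - |q k|)
    (hν : (A.card : ℝ) = ν * d) {l : ι} (hl : ∀ i, q i ≤ q l) (h45 : 4 / 5 ≤ q l)
    (h1 : q l ≤ 1) : q l = 1 := by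
  have hd0 : 0 < d := by linarith
  obtain ⟨M, hM⟩ : ∃ M, M = q l := ⟨_, rfl⟩
  obtain ⟨a, ha⟩ : ∃ a, a = b l := ⟨_, rfl⟩
  rw [← hM] at h45 h1
  have ha0 : 0 ≤ a := ha ▸ hb l
  have ha2 : a ^ 2 = 1 + d * M := by rw [ha, hM]; exact hqb l
  have haD : 0.89 * D ≤ a := by
    apply le_of_sq_le_sq _ ha0
    rw [ha2, mul_pow, hD2]
    have := mul_le_mul_of_nonneg_left h45 hd0.le
    linarith
  have ha4 : 4 ≤ a := by linarith
  have hrM : r * M ≤ a := by
    apply le_of_sq_le_sq _ ha0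
    rw [mul_pow, hr2, ha2]
    have h2 : M ^ 2 ≤ M := by
      rw [sq]
      have := mul_le_mul_of_nonneg_left h1 (by linarith : 0 ≤ M)
      linarith
    have h3 : (d + 1) * M ^ 2 ≤ (d + 1) * M := mul_le_mul_of_nonneg_left h2 (by linarith)
    linarith
  have hγ0 : 0 ≤ a - r * M := by linarith
  have hγ := num_gamma hr0 hr2 ha4 ha2 (by linarith) h1 hγ0
  obtain ⟨γ, hγe⟩ : ∃ γ, γ = a - r * M := ⟨_, rfl⟩
  obtain ⟨δ, hδe⟩ : ∃ δ, δ = 1 - M := ⟨_, rfl⟩
  obtain ⟨S, hS⟩ : ∃ S, S = ∑ i ∈ univ.erase l, |q i| := ⟨_, rfl⟩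
  have hbd := core2_point hd hD2 hD hr0 hrD hb hqb pair hl hM h45 ha ha4 hγ0 hS
  rw [← hγe, ← hδe] at hγ
  rw [← hγe] at hbd hγ0
  have hS0 : 0 ≤ S := by
    rw [hS]
    exact Finset.sum_nonneg fun i _ => abs_nonneg _
  have hδ0 : 0 ≤ δ := by linarith
  have hδ1 : δ ≤ 1 / 5 := by linarith
  have hsumq : ∑ i ∈ A.erase l, q i = δ := by
    rw [← erase_eq l supp]
    have := hsplit l q
    linarith
  have hcard : ((A.erase l).card : ℝ) ≤ ν * d := by
    rw [← hν]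
    exact_mod_cast Finset.card_le_card (Finset.erase_subset _ _)
  have ht0 : 0 ≤ 2 * (S + γ) / a := div_nonneg (by linarith) ha0
  have hSb := core2_S hd0 hb hqb supp hsumq hcard ht0 hbd
  rw [← hS] at hSb
  have hS5 : S ≤ (S + γ) / 5 := by
    have e1 : 2 * (S + γ) / a * (2 * ν + δ / 2) = (S + γ) * ((4 * ν + δ) / a) := by ring
    rw [e1] at hSb
    have e2 := mul_le_mul_of_nonneg_left (num_S hD hν1 ha4 haD hδ1) (by linarith : 0 ≤ S + γ)
    linarith
  have hH : S + γ ≤ 1.34 * δ * a := by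
    have : S ≤ γ / 4 := by linarith
    have h3 : S + γ ≤ 1.25 * γ := by linarith
    have h4 : 0 ≤ δ * a := mul_nonneg hδ0 ha0
    linarith
  have hfin := core2_sq hd0 hqb supp hsumq hcard ht0 hbd
  have hend := num_end hd0 hD2 hD hν1 ha4 hδ0 hδ1 hν0 (by linarith : 0 ≤ S + γ) hH
  have h5 : δ * (1 + M) = ∑ i ∈ univ.erase l, q i ^ 2 := by
    have := hsplit l (fun i => q i ^ 2)
    rw [sum2, ← hM] at this
    have h2 : δ * (1 + M) = 1 - M ^ 2 := by rw [hδe]; ring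
    linarith
  have h6 : δ * (1 + M) ≤ δ / 2 := by linarith
  have h7 : δ * (1 + M) = δ + δ * M := by ring
  have h8 : 0 ≤ δ * M := mul_nonneg hδ0 (by linarith)
  have : δ ≤ 0 := by linarith
  rw [← hM]
  linarith

/-- The main real inequality. -/
theorem core {d : ℝ} (hd : 21 ≤ d) {q b : ι → ℝ} {A : Finset ι}
    (hb : ∀ i, 0 ≤ b i) (hqb : ∀ i, b i ^ 2 = 1 + d * q i)
    (supp : ∀ i, i ∉ A → q i = 0)
    (sum1 : ∑ i, q i = 1) (sum2 : ∑ i, q i ^ 2 = 1)
    (pair : ∀ l k, l ≠ k → |b l * b k - |q l + q k| * Real.sqrt (d + 1)| ≤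
      (∑ i, |q i|) - |q l| - |q k|)
    (hcard : (A.card : ℝ) ≤ d * Real.sqrt d / 32) : ∃ l, q l = 1 := by
  have hd0 : 0 < d := by linarith
  obtain ⟨D, hD⟩ : ∃ D, D = Real.sqrt d := ⟨_, rfl⟩
  obtain ⟨r, hr⟩ : ∃ r, r = Real.sqrt (d + 1) := ⟨_, rfl⟩
  have hD2 : D ^ 2 = d := by rw [hD]; exact Real.sq_sqrt hd0.le
  have hr2 : r ^ 2 = d + 1 := by rw [hr]; exact Real.sq_sqrt (by linarith)
  have hD0 : 0 ≤ D := by rw [hD]; exact Real.sqrt_nonneg _
  have hr0 : 0 ≤ r := by rw [hr]; exact Real.sqrt_nonneg _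
  have hD45 : 4.5 ≤ D := by
    apply le_of_sq_le_sq _ hD0
    rw [hD2]
    linarith
  have hrD : r ≤ 1.04 * D := by
    apply le_of_sq_le_sq _ (by linarith)
    rw [mul_pow, hr2, hD2]
    linarith
  rw [← hr] at pair
  rw [← hD] at hcard
  obtain ⟨ν, hνe⟩ : ∃ ν, ν = (A.card : ℝ) / d := ⟨_, rfl⟩
  have hν : (A.card : ℝ) = ν * d := by
    rw [hνe]
    exact (div_mul_cancel₀ _ hd0.ne').symm
  have hν0 : 0 ≤ ν := by
    rw [hνe]
    exact div_nonneg (Nat.cast_nonneg _) hd0.le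
  have hν1 : ν ≤ D / 32 := by
    rw [hνe, div_le_iff₀ hd0]
    linarith
  obtain ⟨l, hl, h45, h1⟩ := core1 hd0 hD2 hD45 hr0 hrD hν0 hν1 hb hqb supp sum1 sum2 pair hν
  exact ⟨l, core2 hd hD2 hD45 hr0 hr2 hrD hν0 hν1 hb hqb supp sum1 sum2 pair hν hl h45 h1⟩

end Pool.Agent.L5helper45.NM
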