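import Mathlib
import Pool.Agent.H109R2.SICBase
import Pool.Agent.L5helper45.NM.Core2

/-!
# Near misses to a maximal equiangular tight frame
-/

set_option autoImplicit false

open Matrix Finset
open Pool.Agent.H109R2.SIC

namespace Pool.Agent.L5helper45.NM

variable {d : ℕ} {x : Fin (d ^ 2) → EuclideanSpace ℂ (Fin d)}

/-- the rank one matrix of a vector -/
noncomputable def Y (y : EuclideanSpace ℂ (Fin d)) : Matrix (Fin d) (Fin d) ℂ :=
  Matrix.of fun a b => y a * star (y b)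

/-- the coefficients of `y y*` in the basis of projections -/
noncomputable def qc (x : Fin (d ^ 2) → EuclideanSpace ℂ (Fin d))
    (y : EuclideanSpace ℂ (Fin d)) (i : Fin (d ^ 2)) : ℝ :=
  (((d : ℝ) + 1) * ‖inner ℂ (x i) y‖ ^ 2 - 1) / d

/-- the normalised moduli -/
noncomputable def bc (x : Fin (d ^ 2) → EuclideanSpace ℂ (Fin d))
    (y : EuclideanSpace ℂ (Fin d)) (i : Fin (d ^ 2)) : ℝ :=
  Real.sqrt ((d : ℝ) + 1) * ‖inner ℂ (x i) y‖

theorem trace_PY (y : EuclideanSpace ℂ (Fin d)) (i : Fin (d ^ 2)) :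
    trace (P x i * Y y) = ((‖inner ℂ (x i) y‖ ^ 2 : ℝ) : ℂ) := by
  rw [trace_P_mul]
  have h : ((‖inner ℂ (x i) y‖ ^ 2 : ℝ) : ℂ) = inner ℂ (x i) y * inner ℂ y (x i) := by
    rw [← inner_conj_symm y (x i), RCLike.mul_conj]
    norm_cast
  rw [h, inner_eq, inner_eq, Finset.sum_mul_sum]
  refine Finset.sum_congr rfl fun a _ => Finset.sum_congr rfl fun b _ => ?_
  simp only [Y, of_apply]
  ring

theorem trace_Y {y : EuclideanSpace ℂ (Fin d)} (hy : ‖y‖ = 1) : trace (Y y) = 1 := by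
  have h2 : inner ℂ y y = (1 : ℂ) := by
    rw [inner_self_eq_norm_sq_to_K, hy]; simp
  rw [← h2, inner_eq]
  refine Finset.sum_congr rfl fun a _ => ?_
  simp only [Y, of_apply, diag_apply]
  ring

theorem trace_YY {y : EuclideanSpace ℂ (Fin d)} (hy : ‖y‖ = 1) : trace (Y y * Y y) = 1 := by
  have h : Y y * Y y = Y y := by
    ext a b
    simp only [mul_apply, Y, of_apply]
    have h2 : inner ℂ y y = (1 : ℂ) := by
      rw [inner_self_eq_norm_sq_to_K, hy]; simp
    rw [inner_eq] at h2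
    calc ∑ j, y a * star (y j) * (y j * star (y b))
        = ∑ j, (y a * star (y b)) * (star (y j) * y j) := by
          refine Finset.sum_congr rfl fun j _ => ?_
          ring
      _ = y a * star (y b) := by rw [← Finset.mul_sum, h2, mul_one]
  rw [h, trace_Y hy]

theorem d_ne {y : EuclideanSpace ℂ (Fin d)} (hy : ‖y‖ = 1) : d ≠ 0 := by
  rintro rfl
  have : y = 0 := Subsingleton.elim _ _
  rw [this, norm_zero] at hy
  exact zero_ne_one hy

/-- `y y*` is the combination of the projections with coefficients `qc`. -/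
theorem Y_eq (hx : IsMaxETF d x) {y : EuclideanSpace ℂ (Fin d)} (hy : ‖y‖ = 1) :
    Y y = ∑ i, ((qc x y i : ℝ) : ℂ) • P x i := by
  have hd : (d : ℂ) ≠ 0 := Nat.cast_ne_zero.2 (d_ne hy)
  have hd1 := d1_ne (d := d)
  have h := design hx (Y y)
  rw [trace_Y hy, one_smul] at h
  have h1 := sum_P hx
  have h2 : ∑ i, ((qc x y i : ℝ) : ℂ) • P x i =
      (((d : ℂ) + 1) / d) • ∑ i, trace (P x i * Y y) • P x i - (1 / (d : ℂ)) • ∑ i, P x i := by
    rw [Finset.smul_sum, Finset.smul_sum, ← Finset.sum_sub_distrib]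
    refine Finset.sum_congr rfl fun i _ => ?_
    rw [trace_PY, smul_smul, ← sub_smul]
    congr 1
    unfold qc
    push_cast
    ring
  rw [h2, h, h1, smul_smul, smul_smul]
  have e1 : ((d : ℂ) + 1) / d * ((d : ℂ) / ((d : ℂ) + 1)) = 1 := by field_simp
  have e2 : 1 / (d : ℂ) * d = 1 := by field_simp
  rw [e1, e2, one_smul, one_smul]
  abel

theorem sum_q (hx : IsMaxETF d x) {y : EuclideanSpace ℂ (Fin d)} (hy : ‖y‖ = 1) :
    ∑ i, qc x y i = 1 := by
  have h := congrArg trace (Y_eq hx hy)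
  rw [trace_Y hy, trace_sum] at h
  simp only [trace_smul, trace_P hx, smul_eq_mul, mul_one] at h
  exact_mod_cast h.symm

theorem sum_q_sq (hx : IsMaxETF d x) {y : EuclideanSpace ℂ (Fin d)} (hy : ‖y‖ = 1) :
    ∑ i, qc x y i ^ 2 = 1 := by
  have hd : (d : ℝ) ≠ 0 := Nat.cast_ne_zero.2 (d_ne hy)
  have h := congrArg (fun M => trace (M * Y y)) (Y_eq hx hy)
  simp only [Finset.sum_mul, trace_sum, smul_mul_assoc, trace_smul, smul_eq_mul, trace_PY,
    trace_YY hy] at h
  have h1 : ∑ i, qc x y i * ‖inner ℂ (x i) y‖ ^ 2 = 1 := by exact_mod_cast h.symm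
  have h2 : ∀ i, qc x y i ^ 2 =
      ((d : ℝ) + 1) / d * (qc x y i * ‖inner ℂ (x i) y‖ ^ 2) - 1 / d * qc x y i := by
    intro i
    have : qc x y i = ((d : ℝ) + 1) / d * ‖inner ℂ (x i) y‖ ^ 2 - 1 / d := by
      unfold qc
      ring
    calc qc x y i ^ 2 = qc x y i * qc x y i := sq _
      _ = qc x y i * (((d : ℝ) + 1) / d * ‖inner ℂ (x i) y‖ ^ 2 - 1 / d) := by rw [← this]
      _ = _ := by ring
  simp only [h2]
  rw [Finset.sum_sub_distrib, ← Finset.mul_sum, ← Finset.mul_sum, h1, sum_q hx hy]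
  field_simp
  ring

theorem bc_sq {y : EuclideanSpace ℂ (Fin d)} (hy : ‖y‖ = 1) (i : Fin (d ^ 2)) :
    bc x y i ^ 2 = 1 + (d : ℝ) * qc x y i := by
  have hd : (d : ℝ) ≠ 0 := Nat.cast_ne_zero.2 (d_ne hy)
  unfold bc qc
  rw [mul_pow, Real.sq_sqrt (by positivity)]
  field_simp
  ring

/-- the two-point functions of a rank one matrix -/
theorem form_eq (hx : IsMaxETF d x) {y : EuclideanSpace ℂ (Fin d)} (hy : ‖y‖ = 1)
    (u v : EuclideanSpace ℂ (Fin d)) :
    inner ℂ u y * inner ℂ y v = ∑ i, ((qc x y i : ℝ) : ℂ) * (inner ℂ u (x i) * inner ℂ (x i) v) := by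
  have hform : ∀ z : EuclideanSpace ℂ (Fin d),
      inner ℂ u z * inner ℂ z v = ∑ a, ∑ b, star (u a) * (z a * star (z b)) * v b := by
    intro z
    rw [inner_eq, inner_eq, Finset.sum_mul_sum]
    refine Finset.sum_congr rfl fun a _ => Finset.sum_congr rfl fun b _ => ?_
    ring
  have h : ∀ a b, y a * star (y b) = ∑ i, ((qc x y i : ℝ) : ℂ) * (x i a * star (x i b)) := by
    intro a b
    have := congrFun (congrFun (Y_eq hx hy) a) b
    simp only [Y, of_apply, Matrix.sum_apply, Matrix.smul_apply, P, smul_eq_mul] at this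
    exact this
  rw [hform]
  simp only [h, hform]
  simp only [Finset.mul_sum, Finset.sum_mul]
  have e1 : ∀ a : Fin d, ∑ b : Fin d, ∑ i : Fin (d ^ 2),
      star (u a) * (((qc x y i : ℝ) : ℂ) * (x i a * star (x i b))) * v b =
      ∑ i : Fin (d ^ 2), ∑ b : Fin d,
      star (u a) * (((qc x y i : ℝ) : ℂ) * (x i a * star (x i b))) * v b :=
    fun a => Finset.sum_comm
  rw [Finset.sum_congr rfl fun a _ => e1 a, Finset.sum_comm]
  refine Finset.sum_congr rfl fun i _ => Finset.sum_congr rfl fun a _ =>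
    Finset.sum_congr rfl fun b _ => ?_
  ring

/-- the pair inequality -/
theorem pair_ineq (hx : IsMaxETF d x) {y : EuclideanSpace ℂ (Fin d)} (hy : ‖y‖ = 1)
    (l k : Fin (d ^ 2)) (hlk : l ≠ k) :
    |bc x y l * bc x y k - |qc x y l + qc x y k| * Real.sqrt ((d : ℝ) + 1)| ≤
      (∑ i, |qc x y i|) - |qc x y l| - |qc x y k| := by
  obtain ⟨r, hr⟩ : ∃ r, r = Real.sqrt ((d : ℝ) + 1) := ⟨_, rfl⟩
  have hr2 : r ^ 2 = (d : ℝ) + 1 := by rw [hr]; exact Real.sq_sqrt (by positivity)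
  have hr0 : 0 < r := by rw [hr]; exact Real.sqrt_pos.2 (by positivity)
  have hself : ∀ i, inner ℂ (x i) (x i) = (1 : ℂ) := by
    intro i
    rw [inner_self_eq_norm_sq_to_K, hx.1]; simp
  have hmem : k ∈ Finset.univ.erase l := Finset.mem_erase.2 ⟨hlk.symm, Finset.mem_univ k⟩
  have h := form_eq hx hy (x l) (x k)
  rw [← Finset.add_sum_erase _ _ (Finset.mem_univ l), ← Finset.add_sum_erase _ _ hmem,
    hself, hself, one_mul, mul_one, ← add_assoc, ← add_mul] at h
  have h1 : ‖∑ i ∈ (Finset.univ.erase l).erase k,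
      ((qc x y i : ℝ) : ℂ) * (inner ℂ (x l) (x i) * inner ℂ (x i) (x k))‖ ≤
      (1 / r ^ 2) * ∑ i ∈ (Finset.univ.erase l).erase k, |qc x y i| := by
    rw [Finset.mul_sum]
    apply (norm_sum_le _ _).trans
    apply Finset.sum_le_sum
    intro i hi
    rw [Finset.mem_erase, Finset.mem_erase] at hi
    rw [norm_mul, norm_mul, hx.2 l i (Ne.symm hi.2.1), hx.2 i k hi.1, ← hr, Complex.norm_real,
      Real.norm_eq_abs]
    apply le_of_eq
    field_simp
  have hsum : ∑ i ∈ (Finset.univ.erase l).erase k, |qc x y i| =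
      (∑ i, |qc x y i|) - |qc x y l| - |qc x y k| := by
    rw [← Finset.add_sum_erase _ (fun i => |qc x y i|) (Finset.mem_univ l),
      ← Finset.add_sum_erase _ (fun i => |qc x y i|) hmem]
    ring
  have h2 : ‖inner ℂ (x l) y * inner ℂ y (x k)‖ = bc x y l * bc x y k / r ^ 2 := by
    rw [norm_mul, norm_inner_symm y (x k)]
    unfold bc
    rw [← hr]
    field_simp
  have h3 : ‖(((qc x y l : ℝ) : ℂ) + ((qc x y k : ℝ) : ℂ)) * inner ℂ (x l) (x k)‖ =
      |qc x y l + qc x y k| / r := by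
    rw [norm_mul, hx.2 l k hlk, ← hr, ← Complex.ofReal_add, Complex.norm_real, Real.norm_eq_abs]
    ring
  have h4 : |bc x y l * bc x y k / r ^ 2 - |qc x y l + qc x y k| / r| ≤
      (1 / r ^ 2) * ((∑ i, |qc x y i|) - |qc x y l| - |qc x y k|) := by
    rw [← h2, ← h3, ← hsum]
    refine (abs_norm_sub_norm_le _ _).trans ?_
    rw [h, add_sub_cancel_left]
    exact h1
  have h5 : bc x y l * bc x y k / r ^ 2 - |qc x y l + qc x y k| / r =
      (bc x y l * bc x y k - |qc x y l + qc x y k| * r) * (1 / r ^ 2) := by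
    field_simp
  rw [← hr]
  rw [h5, abs_mul, abs_of_pos (by positivity : (0 : ℝ) < 1 / r ^ 2), mul_comm] at h4
  exact le_of_mul_le_mul_left h4 (by positivity)

/-- **Rigidity of near misses.** -/
theorem near_miss (hx : IsMaxETF d x) {y : EuclideanSpace ℂ (Fin d)} (hy : ‖y‖ = 1)
    (A : Finset (Fin (d ^ 2))) (hA : (A.card : ℝ) ≤ (d : ℝ) * Real.sqrt d / 32)
    (hxy : ∀ i, i ∉ A → ‖inner ℂ (x i) y‖ = 1 / Real.sqrt ((d : ℝ) + 1)) :
    ∃ i, ∃ c : ℂ, ‖c‖ = 1 ∧ y = c • x i := by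
  have hd0 : d ≠ 0 := d_ne hy
  have hdR : (d : ℝ) ≠ 0 := Nat.cast_ne_zero.2 hd0
  have supp : ∀ i, i ∉ A → qc x y i = 0 := by
    intro i hi
    unfold qc
    rw [hxy i hi, div_pow, Real.sq_sqrt (by positivity)]
    field_simp
    ring
  have hq : ∃ l, qc x y l = 1 := by
    by_cases h21 : 21 ≤ d
    · refine core (d := d) (by exact_mod_cast h21) (b := bc x y) (A := A) ?_ (bc_sq hy) supp
        (sum_q hx hy) (sum_q_sq hx hy) (pair_ineq hx hy) hA
      intro i
      unfold bc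
      positivity
    · refine small_case (A := A) ?_ supp (sum_q hx hy) (sum_q_sq hx hy)
      have h20 : (d : ℝ) ≤ 20 := by
        have : d ≤ 20 := by omega
        exact_mod_cast this
      have hs : Real.sqrt (d : ℝ) ≤ 4.5 := by
        rw [Real.sqrt_le_left (by norm_num)]
        linarith
      have h3 : (A.card : ℝ) < 3 := by
        have h1 : (d : ℝ) * Real.sqrt d ≤ 20 * 4.5 :=
          mul_le_mul h20 hs (Real.sqrt_nonneg _) (by norm_num)
        linarith
      have h4 : A.card < 3 := by exact_mod_cast h3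
      omega
  obtain ⟨l, hl⟩ := hq
  have h1 : ‖inner ℂ (x l) y‖ ^ 2 = 1 := by
    unfold qc at hl
    rw [div_eq_one_iff_eq hdR] at hl
    have hd1 : (d : ℝ) + 1 ≠ 0 := by positivity
    have : ((d : ℝ) + 1) * ‖inner ℂ (x l) y‖ ^ 2 = ((d : ℝ) + 1) * 1 := by linarith
    exact mul_left_cancel₀ hd1 this
  have h2 : ‖inner ℂ (x l) y‖ = 1 := by
    have := norm_nonneg (inner ℂ (x l) y)
    nlinarith
  have hx0 : x l ≠ 0 := by
    intro h
    have := hx.1 l
    rw [h, norm_zero] at this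
    exact zero_ne_one this
  have hy0 : y ≠ 0 := by
    intro h
    rw [h, norm_zero] at hy
    exact zero_ne_one hy
  obtain ⟨c, hc, hcy⟩ := (norm_inner_eq_norm_iff (𝕜 := ℂ) hx0 hy0).1 (by rw [h2, hx.1, hy, one_mul])
  refine ⟨l, c, ?_, hcy⟩
  have := congrArg norm hcy
  rw [norm_smul, hx.1, hy, mul_one] at this
  exact this.symm

/-- two maximal ETFs with most lines in common have all lines in common -/
theorem two_frames (hx : IsMaxETF d x) {y : Fin (d ^ 2) → EuclideanSpace ℂ (Fin d)}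
    (hy : IsMaxETF d y) (A : Finset (Fin (d ^ 2)))
    (hA : (A.card : ℝ) ≤ (d : ℝ) * Real.sqrt d / 32)
    (hxy : ∀ i, i ∉ A → ∃ j, ∃ c : ℂ, x i = c • y j) :
    ∃ σ : Equiv.Perm (Fin (d ^ 2)), ∀ j, ∃ c : ℂ, ‖c‖ = 1 ∧ y j = c • x (σ j) := by
  have h : ∀ j, ∃ i, ∃ c : ℂ, ‖c‖ = 1 ∧ y j = c • x i := by
    intro j
    by_cases hj : ∃ i, ∃ c : ℂ, x i = c • y j
    · obtain ⟨i, c, hc⟩ := hj
      have hc1 : ‖c‖ = 1 := by
        have := congrArg norm hc
        rw [norm_smul, hx.1, hy.1, mul_one] at this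
        exact this.symm
      have hc0 : c ≠ 0 := by
        intro h
        rw [h, norm_zero] at hc1
        exact zero_ne_one hc1
      refine ⟨i, c⁻¹, by rw [norm_inv, hc1, inv_one], ?_⟩
      rw [hc, smul_smul, inv_mul_cancel₀ hc0, one_smul]
    · apply near_miss hx (hy.1 j) A hA
      intro i hi
      obtain ⟨k, c, hc⟩ := hxy i hi
      have hkj : k ≠ j := by
        rintro rfl
        exact hj ⟨i, c, hc⟩
      have hc1 : ‖c‖ = 1 := by
        have := congrArg norm hc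
        rw [norm_smul, hx.1, hy.1, mul_one] at this
        exact this.symm
      rw [hc, inner_smul_left, norm_mul, RCLike.norm_conj, hc1, one_mul]
      exact hy.2 k j hkj
  choose s c hc1 hc using h
  have hinj : Function.Injective s := by
    intro j k hjk
    by_contra hne
    have h1 := hy.2 j k hne
    rw [hc j, hc k, hjk, inner_smul_left, inner_smul_right, norm_mul, norm_mul, RCLike.norm_conj,
      hc1, hc1, one_mul, one_mul, inner_self_eq_norm_sq_to_K, hx.1] at h1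
    have hd0 : d ≠ 0 := d_ne (hy.1 j)
    have hdR : (1 : ℝ) ≤ d := by exact_mod_cast Nat.one_le_iff_ne_zero.2 hd0
    have h2 : (1 : ℝ) < Real.sqrt ((d : ℝ) + 1) := by
      rw [Real.lt_sqrt (by norm_num)]
      linarith
    have h3 : 1 / Real.sqrt ((d : ℝ) + 1) < 1 := by
      rw [div_lt_one (by linarith)]
      exact h2
    rw [← h1] at h3
    simp at h3
  refine ⟨Equiv.ofBijective s (Finite.injective_iff_bijective.1 hinj), fun j => ⟨c j, hc1 j, ?_⟩⟩
  simpa using hc j

end Pool.Agent.L5helper45.NM
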